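import Pool.Agent.R877.RN.Stm

/-!
Project RN (MP_6ec3b3_gt): pieces MROT and MTR.
-/

namespace R877.RN

open Matrix

namespace BASB

variable {n : ℕ}

/-- orthogonal matrices preserve the inner product -/
lemma pars {l : Mat n} (hl : lᵀ * l = 1) (u v : Fin n → ℝ) :
    ∑ k, (∑ r, l k r * u r) * (∑ r, l k r * v r) = ∑ r, u r * v r := by
  have h1 : (l *ᵥ u) ⬝ᵥ (l *ᵥ v) = u ⬝ᵥ v := by
    rw [Matrix.dotProduct_mulVec, Matrix.vecMul_mulVec, hl, Matrix.vecMul_one]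
  exact h1

lemma act_eq1 {l : Mat n} (hi : l⁻¹ = lᵀ) (μ : Br n) (i j k : Fin n) :
    act l μ i j k = ∑ r, l k r * ∑ q, l j q * ∑ p, l i p * μ p q r := by
  unfold act
  rw [hi]
  have e1 : ∀ p, ∑ q, ∑ r, l k r * μ p q r * lᵀ p i * lᵀ q j =
      ∑ r, ∑ q, l k r * (l j q * (l i p * μ p q r)) := by
    intro p
    rw [Finset.sum_comm]
    refine Finset.sum_congr rfl fun r _ => Finset.sum_congr rfl fun q _ => ?_
    simp only [Matrix.transpose_apply]
    ring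
  simp only [e1]
  rw [Finset.sum_comm]
  refine Finset.sum_congr rfl fun r _ => ?_
  rw [Finset.sum_comm, Finset.mul_sum]
  refine Finset.sum_congr rfl fun q _ => ?_
  rw [Finset.mul_sum, Finset.mul_sum]

lemma act_eq2 {l : Mat n} (hi : l⁻¹ = lᵀ) (μ : Br n) (i j k : Fin n) :
    act l μ i j k = ∑ q, l j q * ∑ p, l i p * ∑ r, l k r * μ p q r := by
  rw [act_eq1 hi]
  simp only [Finset.mul_sum]
  rw [Finset.sum_comm]
  refine Finset.sum_congr rfl fun q _ => ?_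
  rw [Finset.sum_comm]
  refine Finset.sum_congr rfl fun p _ => Finset.sum_congr rfl fun r _ => ?_
  ring

lemma sum_mul_sum' (l : Mat n) (i j : Fin n) (u v : Fin n → ℝ) :
    (∑ p, l i p * u p) * (∑ p, l j p * v p) = ∑ a, ∑ b, l i a * (u a * v b) * l j b := by
  rw [Finset.sum_mul_sum]
  refine Finset.sum_congr rfl fun a _ => Finset.sum_congr rfl fun b _ => ?_
  ring

lemma conj_apply (l X : Mat n) (i j : Fin n) :
    (l * X * lᵀ) i j = ∑ a, ∑ b, l i a * X a b * l j b := by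
  rw [Matrix.mul_apply]
  simp only [Matrix.mul_apply, Matrix.transpose_apply, Finset.sum_mul]
  rw [Finset.sum_comm]

lemma term1 {l : Mat n} (hl : lᵀ * l = 1) (hi : l⁻¹ = lᵀ) (μ : Br n) (i j : Fin n) :
    ∑ p, ∑ k, act l μ i p k * act l μ j p k =
      ∑ a, ∑ b, l i a * (∑ p, ∑ k, μ a p k * μ b p k) * l j b := by
  simp only [act_eq1 hi]
  have e1 : ∀ p, ∑ k, (∑ r, l k r * ∑ q, l p q * ∑ s, l i s * μ s q r) *
      (∑ r, l k r * ∑ q, l p q * ∑ s, l j s * μ s q r) =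
      ∑ r, (∑ q, l p q * ∑ s, l i s * μ s q r) * (∑ q, l p q * ∑ s, l j s * μ s q r) :=
    fun p => pars hl _ _
  simp only [e1]
  rw [Finset.sum_comm]
  have e2 : ∀ r, ∑ p, (∑ q, l p q * ∑ s, l i s * μ s q r) * (∑ q, l p q * ∑ s, l j s * μ s q r) =
      ∑ q, (∑ s, l i s * μ s q r) * (∑ s, l j s * μ s q r) := fun r => pars hl _ _
  simp only [e2]
  simp only [sum_mul_sum']
  simp only [Finset.mul_sum, Finset.sum_mul]
  rw [Finset.sum_comm]
  have e3 : ∀ q, ∑ r, ∑ a, ∑ b, l i a * (μ a q r * μ b q r) * l j b =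
      ∑ a, ∑ b, ∑ r, l i a * (μ a q r * μ b q r) * l j b := by
    intro q
    rw [Finset.sum_comm]
    exact Finset.sum_congr rfl fun a _ => Finset.sum_comm
  simp only [e3]
  rw [Finset.sum_comm]
  exact Finset.sum_congr rfl fun a _ => Finset.sum_comm

lemma term2 {l : Mat n} (hl : lᵀ * l = 1) (hi : l⁻¹ = lᵀ) (μ : Br n) (i j : Fin n) :
    ∑ p, ∑ q, act l μ p q i * act l μ p q j =
      ∑ a, ∑ b, l i a * (∑ p, ∑ q, μ p q a * μ p q b) * l j b := by
  simp only [act_eq2 hi]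
  have e1 : ∀ p, ∑ k, (∑ q, l k q * ∑ s, l p s * ∑ r, l i r * μ s q r) *
      (∑ q, l k q * ∑ s, l p s * ∑ r, l j r * μ s q r) =
      ∑ q, (∑ s, l p s * ∑ r, l i r * μ s q r) * (∑ s, l p s * ∑ r, l j r * μ s q r) :=
    fun p => pars hl _ _
  simp only [e1]
  rw [Finset.sum_comm]
  have e2 : ∀ q, ∑ p, (∑ s, l p s * ∑ r, l i r * μ s q r) * (∑ s, l p s * ∑ r, l j r * μ s q r) =
      ∑ s, (∑ r, l i r * μ s q r) * (∑ r, l j r * μ s q r) := fun r => pars hl _ _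
  simp only [e2]
  simp only [sum_mul_sum']
  simp only [Finset.mul_sum, Finset.sum_mul]
  rw [Finset.sum_comm]
  have e3 : ∀ s, ∑ q, ∑ a, ∑ b, l i a * (μ s q a * μ s q b) * l j b =
      ∑ a, ∑ b, ∑ q, l i a * (μ s q a * μ s q b) * l j b := by
    intro s
    rw [Finset.sum_comm]
    exact Finset.sum_congr rfl fun a _ => Finset.sum_comm
  simp only [e3]
  rw [Finset.sum_comm]
  exact Finset.sum_congr rfl fun a _ => Finset.sum_comm

end BASB

open BASB

theorem p_MROT : P_MROT := by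
  intro n l μ hl
  have hl1 : l * lᵀ = 1 := hl
  have hl2 : lᵀ * l = 1 := mul_eq_one_comm.1 hl1
  have hi : l⁻¹ = lᵀ := Matrix.inv_eq_right_inv hl1
  ext i j
  rw [conj_apply]
  unfold Mm
  rw [term1 hl2 hi, term2 hl2 hi]
  rw [Finset.mul_sum, Finset.mul_sum, ← Finset.sum_add_distrib]
  refine Finset.sum_congr rfl fun a _ => ?_
  rw [Finset.mul_sum, Finset.mul_sum, ← Finset.sum_add_distrib]
  refine Finset.sum_congr rfl fun b _ => ?_
  ring

theorem p_MTR : P_MTR := by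
  intro n μ a hμ
  have e1 : ∑ i, a i * Mm μ i i = -(1/2) * (∑ i, ∑ j, ∑ k, a i * (μ i j k) ^ 2) +
      (1/4) * ∑ k, ∑ i, ∑ j, a k * (μ i j k) ^ 2 := by
    rw [Finset.mul_sum, Finset.mul_sum, ← Finset.sum_add_distrib]
    refine Finset.sum_congr rfl fun i _ => ?_
    unfold Mm
    have h1 : ∑ j, ∑ k, a i * (μ i j k) ^ 2 = a i * ∑ p, ∑ k, μ i p k * μ i p k := by
      rw [Finset.mul_sum]
      refine Finset.sum_congr rfl fun j _ => ?_
      rw [Finset.mul_sum]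
      exact Finset.sum_congr rfl fun k _ => by ring
    have h2 : ∑ p, ∑ q, a i * (μ p q i) ^ 2 = a i * ∑ p, ∑ q, μ p q i * μ p q i := by
      rw [Finset.mul_sum]
      refine Finset.sum_congr rfl fun j _ => ?_
      rw [Finset.mul_sum]
      exact Finset.sum_congr rfl fun k _ => by ring
    rw [h1, h2]
    ring
  have e2 : ∑ k, ∑ i, ∑ j, a k * (μ i j k) ^ 2 = ∑ i, ∑ j, ∑ k, a k * (μ i j k) ^ 2 := by
    rw [Finset.sum_comm]
    exact Finset.sum_congr rfl fun i _ => Finset.sum_comm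
  have e3 : ∑ i, ∑ j, ∑ k, a j * (μ i j k) ^ 2 = ∑ i, ∑ j, ∑ k, a i * (μ i j k) ^ 2 := by
    rw [Finset.sum_comm]
    refine Finset.sum_congr rfl fun i _ => Finset.sum_congr rfl fun j _ =>
      Finset.sum_congr rfl fun k _ => ?_
    rw [hμ j i k]
    ring
  have e4 : ∑ i, ∑ j, ∑ k, (a k - a i - a j) * (μ i j k) ^ 2 =
      ∑ i, ∑ j, ∑ k, a k * (μ i j k) ^ 2 - ∑ i, ∑ j, ∑ k, a i * (μ i j k) ^ 2 -
        ∑ i, ∑ j, ∑ k, a j * (μ i j k) ^ 2 := by
    simp only [← Finset.sum_sub_distrib]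
    refine Finset.sum_congr rfl fun i _ => Finset.sum_congr rfl fun j _ =>
      Finset.sum_congr rfl fun k _ => ?_
    ring
  rw [e1, e2, e4, e3]
  ring

end R877.RN
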